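import Pool.Agent.U644.PW.Core

/-!
# P = W on higher-dimensional varieties: the coarse form suffices, on surfaces with ample canonical class

`PWTheory` collects the known facts used. Q1 and Q2 are about `H = IH(M_B(X,G)) = IH(M_D(X,G))`, with the weight filtration
`W` and the perverse Leray filtration `P` of the Hitchin morphism (transported to one space by `Ψ`).

* Powers of the group: `M_B(X,G^n) = M_B(X,G)^n`, `M_D(X,G^n) = M_D(X,G)^n`, the Hitchin morphism and `Ψ` are products. The
  intersection complex of a product is the exterior product, so `IH` is the tensor power, with the tensor product weight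
  filtration (mixed Hodge structures) and perverse filtration.
* If `Y → X` induces an isomorphism of fundamental groups, then `M_B(X,G) = M_B(Y,G)`, so `H` and `W` are the same for `X` and
  for `Y`. The pull-back `res : M_D(X,G) → M_D(Y,G)` is a morphism and, being `Ψ_Y ∘ Ψ_X⁻¹`, a homeomorphism; it satisfies
  `h_Y ∘ res = r ∘ h_X`, `r` the restriction of symmetric differentials. As `h_X` and `h_Y` are proper, `r` is proper, hence
  finite, on the closed image of `h_X`. Direct images by finite morphisms are exact for the perverse `t`-structures, so `P` is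
  the same for `X` and for `Y` as well.
* `X × ℙ³ → X` induces an isomorphism of fundamental groups, and so does the inclusion of a smooth ample divisor of high
  degree of a variety of dimension at least three (Lefschetz); its canonical class is ample (adjunction).
-/

set_option autoImplicit false

namespace Pool.Agent.Results.MP_65ad7c_ag.CoarseSuffices

open Pool.Agent.U644.PW Filter
open scoped TensorProduct

/-- The filtration on the `n`-th tensor power of `V` induced by the increasing filtration `F` of `V`: its term of index `k`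
is spanned by the `x_1 ⊗ ... ⊗ x_n` with `x_i ∈ F (j_i)` and `j_1 + ... + j_n ≤ k`. -/
def tensorFiltration {V : Type} [AddCommGroup V] [Module ℚ V] (F : ℤ → Submodule ℚ V) (n : ℕ) (k : ℤ) :
    Submodule ℚ (⨂[ℚ] _ : Fin n, V) :=
  Submodule.span ℚ {t | ∃ (j : Fin n → ℤ) (x : Fin n → V), (∀ i, x i ∈ F (j i)) ∧ ∑ i, j i ≤ k ∧
    t = PiTensorProduct.tprod ℚ x}

/-- The moduli spaces of representations and of Higgs bundles, with the known facts that are used. -/
structure PWTheory where
  /-- the connected smooth complex projective varieties -/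
  Var : Type
  /-- the dimension -/
  dim : Var → ℕ
  /-- the canonical class is ample -/
  AmpleK : Var → Prop
  /-- `PiIso Y X`: there is a morphism from `Y` to `X` which induces an isomorphism of the fundamental groups -/
  PiIso : Var → Var → Prop
  pi_trans : ∀ {Z Y X : Var}, PiIso Z Y → PiIso Y X → PiIso Z X
  /-- `X × ℙ³` -/
  times : ∀ X, ∃ Y, dim Y = dim X + 3 ∧ PiIso Y X
  /-- a smooth ample divisor of high degree (Lefschetz and adjunction) -/
  lefschetz : ∀ X, 3 ≤ dim X → ∃ Y, dim Y + 1 = dim X ∧ AmpleK Y ∧ PiIso Y X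
  /-- the complex reductive groups -/
  Grp : Type
  /-- the dimension of a group -/
  dimG : Grp → ℕ
  /-- the power `G ^ n` of a group -/
  pow : Grp → ℕ → Grp
  dimG_pow : ∀ G n, dimG (pow G n) = n * dimG G
  /-- the intersection cohomology `IH(M_B(X,G))`, identified with `IH(M_D(X,G))` by `Ψ` -/
  H : Var → Grp → Type
  [grp : ∀ X G, AddCommGroup (H X G)]
  [mod : ∀ X G, Module ℚ (H X G)]
  /-- the weight filtration of `IH(M_B(X,G))` -/
  W : ∀ X G, ℤ → Submodule ℚ (H X G)
  /-- the perverse Leray filtration of the Hitchin morphism, starting at `0` -/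
  P : ∀ X G, ℤ → Submodule ℚ (H X G)
  W_mono : ∀ X G, Monotone (W X G)
  P_mono : ∀ X G, Monotone (P X G)
  /-- Künneth: `M_B(X,G^n)`, `M_D(X,G^n)`, `Ψ` and the Hitchin morphism are products -/
  kunneth : ∀ X G n, ∃ e : H X (pow G n) ≃ₗ[ℚ] (⨂[ℚ] _ : Fin n, H X G),
    (∀ k, (W X (pow G n) k).map e.toLinearMap = tensorFiltration (W X G) n k) ∧
    (∀ k, (P X (pow G n) k).map e.toLinearMap = tensorFiltration (P X G) n k)
  /-- a morphism which induces an isomorphism of fundamental groups identifies `H`, `W` and `P` -/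
  transfer : ∀ {Y X : Var}, PiIso Y X → ∀ G, ∃ e : H X G ≃ₗ[ℚ] H Y G,
    (∀ k, (W X G k).map e.toLinearMap = W Y G k) ∧ (∀ k, (P X G k).map e.toLinearMap = P Y G k)

attribute [instance] PWTheory.grp PWTheory.mod

/-- Q1 for `X` and `G`: there are no odd weights. -/
def Q1 (T : PWTheory) (X : T.Var) (G : T.Grp) : Prop := ∀ k : ℤ, T.W X G (2 * k + 1) = T.W X G (2 * k)

/-- Q2 for `X` and `G`: `W_{2k} = P_k`. -/
def Q2 (T : PWTheory) (X : T.Var) (G : T.Grp) : Prop := ∀ k : ℤ, T.W X G (2 * k) = T.P X G k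

/-- `P = W` for `X` and `G` up to the error `c`: `W_m ⊆ P_k` if `k ≥ m/2 + c`, and `P_k ⊆ W_m` if `m ≥ 2k + c`. -/
def Coarse (T : PWTheory) (c : ℝ) (X : T.Var) (G : T.Grp) : Prop :=
  (∀ m k : ℤ, (m : ℝ) / 2 + c ≤ k → T.W X G m ≤ T.P X G k) ∧
  (∀ k m : ℤ, 2 * (k : ℝ) + c ≤ m → T.P X G k ≤ T.W X G m)

lemma pw_pow (T : PWTheory) (X : T.Var) (G : T.Grp) (h1 : Q1 T X G) (h2 : Q2 T X G) (n : ℕ) :
    Coarse T 0 X (T.pow G n) := by
  obtain ⟨e, hW, hP⟩ := T.kunneth X G n
  have key : ∀ m : ℤ, T.W X G m = T.P X G (m / 2) := by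
    intro m
    rcases Int.even_or_odd' m with ⟨k, rfl | rfl⟩
    · rw [h2 k]
      congr 1
      omega
    · rw [h1 k, h2 k]
      congr 1
      omega
  constructor
  · intro m k hmk
    have hmk' : m ≤ 2 * k := by
      have : (m : ℝ) ≤ ((2 * k : ℤ) : ℝ) := by push_cast; linarith
      exact_mod_cast this
    have hle : tensorFiltration (T.W X G) n m ≤ tensorFiltration (T.P X G) n k := by
      apply Submodule.span_mono
      rintro t ⟨j, x, hx, hj, rfl⟩
      refine ⟨fun i => j i / 2, x, fun i => ?_, ?_, rfl⟩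
      · rw [← key]; exact hx i
      · have h3 : 2 * ∑ i, j i / 2 ≤ ∑ i, j i := by
          rw [Finset.mul_sum]
          exact Finset.sum_le_sum (fun i _ => by omega)
        show ∑ i, j i / 2 ≤ k
        omega
    rw [← hW, ← hP] at hle
    exact (Submodule.map_le_map_iff_of_injective e.injective _ _).1 hle
  · intro k m hkm
    have hkm' : 2 * k ≤ m := by
      have : ((2 * k : ℤ) : ℝ) ≤ (m : ℝ) := by push_cast; linarith
      exact_mod_cast this
    have hle : tensorFiltration (T.P X G) n k ≤ tensorFiltration (T.W X G) n m := by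
      apply Submodule.span_mono
      rintro t ⟨j, x, hx, hj, rfl⟩
      refine ⟨fun i => 2 * j i, x, fun i => ?_, ?_, rfl⟩
      · show x i ∈ T.W X G (2 * j i)
        rw [h2]; exact hx i
      · rw [← Finset.mul_sum]
        omega
    rw [← hW, ← hP] at hle
    exact (Submodule.map_le_map_iff_of_injective e.injective _ _).1 hle

lemma amplified (T : PWTheory) (X : T.Var) (G : T.Grp) (f : ℕ → ℝ) (hf : Tendsto (fun n => f n / n) atTop (nhds 0))
    (h : ∀ n, Coarse T (f n) X (T.pow G n)) : Q1 T X G ∧ Q2 T X G := by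
  have hWP : ∀ m k : ℤ, m ≤ 2 * k + 1 → T.W X G m ≤ T.P X G k := by
    intro m k hmk
    refine amplify (T.W X G) (T.P X G) (T.P_mono X G) f hf (1 / 2) ?_ ?_
    · intro n u v huv
      obtain ⟨e, hW, hP⟩ := T.kunneth X G n
      have h1 := (h n).1 u v (by linarith)
      have h2 : (T.W X (T.pow G n) u).map e.toLinearMap ≤ (T.P X (T.pow G n) v).map e.toLinearMap := Submodule.map_mono h1
      rwa [hW, hP] at h2
    · have : (m : ℝ) ≤ ((2 * k + 1 : ℤ) : ℝ) := by exact_mod_cast hmk
      push_cast at this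
      linarith
  have hPW : ∀ k m : ℤ, 2 * k ≤ m → T.P X G k ≤ T.W X G m := by
    intro k m hkm
    refine amplify (T.P X G) (T.W X G) (T.W_mono X G) f hf 2 ?_ ?_
    · intro n u v huv
      obtain ⟨e, hW, hP⟩ := T.kunneth X G n
      have h1 := (h n).2 u v huv
      have h2 : (T.P X (T.pow G n) u).map e.toLinearMap ≤ (T.W X (T.pow G n) v).map e.toLinearMap := Submodule.map_mono h1
      rwa [hW, hP] at h2
    · have : ((2 * k : ℤ) : ℝ) ≤ (m : ℝ) := by exact_mod_cast hkm
      push_cast at this
      linarith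
  exact ⟨fun k => le_antisymm ((hWP _ k le_rfl).trans (hPW k _ le_rfl)) (T.W_mono X G (by omega)),
    fun k => le_antisymm (hWP _ k (by omega)) (hPW k _ le_rfl)⟩

lemma transfer_coarse (T : PWTheory) {Y X : T.Var} (hYX : T.PiIso Y X) (G : T.Grp) (c : ℝ) (h : Coarse T c Y G) :
    Coarse T c X G := by
  obtain ⟨e, hW, hP⟩ := T.transfer hYX G
  constructor
  · intro m k hmk
    have h1 := h.1 m k hmk
    rw [← hW, ← hP] at h1
    exact (Submodule.map_le_map_iff_of_injective e.injective _ _).1 h1
  · intro k m hkm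
    have h1 := h.2 k m hkm
    rw [← hW, ← hP] at h1
    exact (Submodule.map_le_map_iff_of_injective e.injective _ _).1 h1

lemma surface_of_three (T : PWTheory) : ∀ (n : ℕ) (X : T.Var), T.dim X = n + 3 →
    ∃ S, T.dim S = 2 ∧ T.AmpleK S ∧ T.PiIso S X := by
  intro n
  induction n with
  | zero =>
    intro X hX
    obtain ⟨Y, hY, hK, hp⟩ := T.lefschetz X (by omega)
    exact ⟨Y, by omega, hK, hp⟩
  | succ n ih =>
    intro X hX
    obtain ⟨Y, hY, -, hp⟩ := T.lefschetz X (by omega)
    obtain ⟨S, hS, hK, hS'⟩ := ih Y (by omega)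
    exact ⟨S, hS, hK, T.pi_trans hS' hp⟩

lemma surface (T : PWTheory) (X : T.Var) : ∃ S, T.dim S = 2 ∧ T.AmpleK S ∧ T.PiIso S X := by
  obtain ⟨Y, hY, hp⟩ := T.times X
  obtain ⟨S, hS, hK, hS'⟩ := surface_of_three T (T.dim X) Y hY
  exact ⟨S, hS, hK, T.pi_trans hS' hp⟩

lemma sublinear (f : ℕ → ℝ) (hf : Tendsto (fun n => f n / n) atTop (nhds 0)) (d : ℕ) :
    Tendsto (fun n : ℕ => f (n * d) / n) atTop (nhds 0) := by
  rcases Nat.eq_zero_or_pos d with rfl | hd
  · simp only [mul_zero]
    exact tendsto_const_div_atTop_nhds_zero_nat _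
  · have h1 : Tendsto (fun n : ℕ => n * d) atTop atTop := tendsto_id.atTop_mul_const' hd
    have h2 := (hf.comp h1).const_mul (d : ℝ)
    rw [mul_zero] at h2
    refine h2.congr' ?_
    filter_upwards [eventually_ge_atTop 1] with n hn
    have hn' : (n : ℝ) ≠ 0 := by positivity
    have hd' : (d : ℝ) ≠ 0 := by positivity
    simp only [Function.comp_apply, Nat.cast_mul]
    field_simp

/-- (A) For every `X` and `G`: Q1 and Q2 hold for `X` and `G` if and only if they hold for `X` and the powers `G ^ n` up to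
an error `f n` with `f n / n → 0`. (B) Q1 and Q2 hold for all `X` and `G` if and only if there is `f` with `f n / n → 0` such
that, for all surfaces `S` with ample canonical class and all `G`, they hold for `S` and `G` up to the error `f (dim G)`. -/
theorem result (T : PWTheory) :
    (∀ X G, (Q1 T X G ∧ Q2 T X G) ↔
      ∃ f : ℕ → ℝ, Tendsto (fun n => f n / n) atTop (nhds 0) ∧ ∀ n, Coarse T (f n) X (T.pow G n)) ∧
    ((∀ X G, Q1 T X G ∧ Q2 T X G) ↔
      ∃ f : ℕ → ℝ, Tendsto (fun n => f n / n) atTop (nhds 0) ∧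
        ∀ S G, T.dim S = 2 → T.AmpleK S → Coarse T (f (T.dimG G)) S G) := by
  refine ⟨fun X G => ⟨fun h => ⟨fun _ => 0, by simp, fun n => pw_pow T X G h.1 h.2 n⟩,
    fun ⟨f, hf, h⟩ => amplified T X G f hf h⟩, ?_, ?_⟩
  · intro h
    refine ⟨fun _ => 0, by simp, fun S G _ _ => ⟨?_, ?_⟩⟩
    · intro m k hmk
      have hmk' : m ≤ 2 * k := by
        have : (m : ℝ) ≤ ((2 * k : ℤ) : ℝ) := by push_cast; linarith
        exact_mod_cast this
      rw [← (h S G).2 k]
      exact T.W_mono S G hmk'
    · intro k m hkm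
      have hkm' : 2 * k ≤ m := by
        have : ((2 * k : ℤ) : ℝ) ≤ (m : ℝ) := by push_cast; linarith
        exact_mod_cast this
      rw [← (h S G).2 k]
      exact T.W_mono S G hkm'
  · rintro ⟨f, hf, h⟩ X G
    obtain ⟨S, hS, hK, hp⟩ := surface T X
    refine amplified T X G (fun n => f (n * T.dimG G)) (sublinear f hf _) (fun n => ?_)
    have h1 := h S (T.pow G n) hS hK
    rw [T.dimG_pow] at h1
    exact transfer_coarse T hp _ _ h1

end Pool.Agent.Results.MP_65ad7c_ag.CoarseSuffices
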