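import Pool.Agent.U282.TF.Odd

/-!
# MP_65ad7c_ag (Q1, Q2): a square root law for P = W on higher-dimensional varieties

`X` is a smooth projective variety, `G` a complex reductive group, `H = IH(M_B(X,G)) = IH(M_D(X,G))`, with the
weight filtration `W` and the perverse Leray filtration `P` of the Hitchin morphism (transported to one space by
`Ψ`). The relative position of the two filtrations is given by the dimensions of the spaces `gr^P_k gr^W_m`. Let

* `total` be the dimension of `H`,
* `right` the sum of the dimensions of the `gr^P_k gr^W_(2 k)` (the part of `H` in the right position),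
* `odd` the sum of the dimensions of the `gr^W_m`, `m` odd.

*Theorem.*

1. Q1 and Q2 hold for `X` and `G` if and only if `right = total`; then `right = total` also for all the powers
   `G ^ n`.
2. If they do not both hold for `X` and `G`, then the share of `right` in `total` for `X` and `G ^ n` is
   `O(1 / √n)`.
3. So Q1 and Q2 hold for all `X` and `G` if and only if there is a function `f` with `f 0 > 0` and
   `f d * √d → ∞` such that `right ≥ f (dim G) * total` for all surfaces `X` with ample canonical class and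
   all `G`: the right position on a share of `(dim G)^(-1/2 + ε)` of `IH` is enough.
4. If Q1 does not hold for `X` and `G`, then the share of `odd` in `total` for `X` and `G ^ n` tends to `1/2`. So
   Q1 holds for all `X` and `G` if and only if there is `ε > 0` such that `odd ≤ (1/2 - ε) * total` for all
   surfaces `X` with ample canonical class and all `G`.

`PWTheory` collects the known facts which are used:

* Powers of the group: `M_B(X,G^n) = M_B(X,G)^n`, `M_D(X,G^n) = M_D(X,G)^n`, the Hitchin morphism and `Ψ` are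
  products. The intersection complex of a product is the exterior product, so `IH` is the tensor power, with
  the tensor product weight filtration (mixed Hodge structures) and perverse filtration.
* If `Y → X` induces an isomorphism of fundamental groups, then `H`, `W` and `P` are the same for `X` and `Y`
  (the Hitchin bases are related by a map which is finite on the image of the Hitchin morphism, and direct
  images by finite morphisms are exact for the perverse `t`-structures). `X × ℙ³ → X` and the inclusion of a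
  smooth ample divisor of high degree of a variety of dimension at least three are such maps.
* `H` is finite-dimensional, `W` and `P` are exhaustive and separated, and the class `1` has weight `0`.

For the proof see `Pool/Agent/U282/TF`: a basis adapted to both filtrations (`Adapt`), its tensor powers
(`Tensor`), a Littlewood-Offord bound for the number of the words of sum `0` (`Bound`), the parity of the sums
(`Odd`).
-/

set_option autoImplicit false

namespace Pool.Agent.Results.MP_65ad7c_ag.SquareRootLaw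

open Pool.Agent.U282.TF Filter Module
open scoped TensorProduct

/-- The moduli spaces of representations and of Higgs bundles, with the known facts that are used. -/
structure PWTheory where
  /-- the connected smooth complex projective varieties -/
  Var : Type
  /-- the dimension -/
  dim : Var → ℕ
  /-- the canonical class is ample -/
  AmpleK : Var → Prop
  /-- `PiIso Y X`: there is a morphism from `Y` to `X` which induces an isomorphism of the fundamental
  groups -/
  PiIso : Var → Var → Prop
  pi_trans : ∀ {Z Y X : Var}, PiIso Z Y → PiIso Y X → PiIso Z X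
  /-- `X × ℙ³` -/
  times : ∀ X, ∃ Y, dim Y = dim X + 3 ∧ PiIso Y X
  /-- a smooth ample divisor of high degree (Lefschetz and adjunction) -/
  lefschetz : ∀ X, 3 ≤ dim X → ∃ Y, dim Y + 1 = dim X ∧ AmpleK Y ∧ PiIso Y X
  /-- the complex reductive groups -/
  Grp : Type
  /-- the dimension of a group -/
  dimG : Grp → ℕ
  /-- the power `G ^ n` of a group -/
  pow : Grp → ℕ → Grp
  dimG_pow : ∀ G n, dimG (pow G n) = n * dimG G
  /-- the intersection cohomology `IH(M_B(X,G))`, identified with `IH(M_D(X,G))` by `Ψ` -/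
  H : Var → Grp → Type
  [grp : ∀ X G, AddCommGroup (H X G)]
  [mod : ∀ X G, Module ℚ (H X G)]
  /-- it is finite-dimensional -/
  [fin : ∀ X G, Module.Finite ℚ (H X G)]
  /-- the weight filtration of `IH(M_B(X,G))` -/
  W : ∀ X G, ℤ → Submodule ℚ (H X G)
  /-- the perverse Leray filtration of the Hitchin morphism, starting at `0` -/
  P : ∀ X G, ℤ → Submodule ℚ (H X G)
  W_fil : ∀ X G, IsFil (W X G)
  P_fil : ∀ X G, IsFil (P X G)
  /-- the class `1` has weight `0` -/
  unit : ∀ X G, ∃ x ∈ W X G 0, x ∉ W X G (-1)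
  /-- Künneth: `M_B(X,G^n)`, `M_D(X,G^n)`, `Ψ` and the Hitchin morphism are products -/
  kunneth : ∀ X G n, ∃ e : H X (pow G n) ≃ₗ[ℚ] (⨂[ℚ] _ : Fin n, H X G),
    (∀ k, (P X (pow G n) k).map e.toLinearMap = tensorFil (P X G) n k) ∧
    (∀ k, (W X (pow G n) k).map e.toLinearMap = tensorFil (W X G) n k)
  /-- a morphism which induces an isomorphism of fundamental groups identifies `H`, `W` and `P` -/
  transfer : ∀ {Y X : Var}, PiIso Y X → ∀ G, ∃ e : H X G ≃ₗ[ℚ] H Y G,
    (∀ k, (W X G k).map e.toLinearMap = W Y G k) ∧ (∀ k, (P X G k).map e.toLinearMap = P Y G k)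

attribute [instance] PWTheory.grp PWTheory.mod PWTheory.fin

variable (T : PWTheory)

/-- Q1 for `X` and `G`: there are no odd weights. -/
def Q1 (X : T.Var) (G : T.Grp) : Prop := ∀ k : ℤ, T.W X G (2 * k + 1) = T.W X G (2 * k)

/-- Q2 for `X` and `G`: `W_{2k} = P_k`. -/
def Q2 (X : T.Var) (G : T.Grp) : Prop := ∀ k : ℤ, T.W X G (2 * k) = T.P X G k

/-- The dimension of `H`. -/
noncomputable def total (X : T.Var) (G : T.Grp) : ℕ := finrank ℚ (T.H X G)

/-- The sum of the dimensions of the `gr^P_k gr^W_(2 k)`. -/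
noncomputable def right (X : T.Var) (G : T.Grp) : ℤ := diag (T.P X G) (T.W X G)

/-- The sum of the dimensions of the `gr^W_m`, `m` odd. -/
noncomputable def odd (X : T.Var) (G : T.Grp) : ℤ := oddNum (T.W X G)

/-- `right = O(total / √n)` for `X` and the powers `G ^ n`. -/
def SmallShare (X : T.Var) (G : T.Grp) : Prop :=
  ∃ C : ℝ, ∀ n : ℕ, 1 ≤ n → (right T X (T.pow G n) : ℝ) * √(n : ℝ) ≤ C * total T X (T.pow G n)

/-- A share `f (dim G)` of `H` is in the right position, for surfaces with ample canonical class. -/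
def ManyRight (f : ℕ → ℝ) : Prop :=
  ∀ S G, T.dim S = 2 → T.AmpleK S → f (T.dimG G) * total T S G ≤ right T S G

/-- At most a share `1/2 - ε` of `H` has odd weight, for surfaces with ample canonical class. -/
def FewOdd (ε : ℝ) : Prop :=
  ∀ S G, T.dim S = 2 → T.AmpleK S → (odd T S G : ℝ) ≤ (1 / 2 - ε) * total T S G

variable {T}

lemma surface_of_three : ∀ (n : ℕ) (X : T.Var), T.dim X = n + 3 →
    ∃ S, T.dim S = 2 ∧ T.AmpleK S ∧ T.PiIso S X := by
  intro n
  induction n with
  | zero =>
    intro X hX
    obtain ⟨Y, hY, hK, hp⟩ := T.lefschetz X (by omega)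
    exact ⟨Y, by omega, hK, hp⟩
  | succ n ih =>
    intro X hX
    obtain ⟨Y, hY, -, hp⟩ := T.lefschetz X (by omega)
    obtain ⟨S, hS, hK, hS'⟩ := ih Y (by omega)
    exact ⟨S, hS, hK, T.pi_trans hS' hp⟩

lemma surface (X : T.Var) : ∃ S, T.dim S = 2 ∧ T.AmpleK S ∧ T.PiIso S X := by
  obtain ⟨Y, hY, hp⟩ := T.times X
  obtain ⟨S, hS, hK, hS'⟩ := surface_of_three (T.dim X) Y hY
  exact ⟨S, hS, hK, T.pi_trans hS' hp⟩

lemma transfer1 {Y X : T.Var} (h : T.PiIso Y X) (G : T.Grp) (h1 : Q1 T Y G) : Q1 T X G := by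
  obtain ⟨e, hW, -⟩ := T.transfer h G
  intro k
  apply Submodule.map_injective_of_injective e.injective
  have := h1 k
  rw [← hW, ← hW] at this
  exact this

lemma transfer2 {Y X : T.Var} (h : T.PiIso Y X) (G : T.Grp) (h1 : Q2 T Y G) : Q2 T X G := by
  obtain ⟨e, hW, hP⟩ := T.transfer h G
  intro k
  apply Submodule.map_injective_of_injective e.injective
  have := h1 k
  rw [← hW, ← hP] at this
  exact this

lemma iff_right (X : T.Var) (G : T.Grp) :
    (Q1 T X G ∧ Q2 T X G) ↔ right T X G = total T X G :=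
  agree_iff_diag (T.P_fil X G) (T.W_fil X G)

lemma right_pow (X : T.Var) (G : T.Grp) (h : Q1 T X G ∧ Q2 T X G) (n : ℕ) :
    right T X (T.pow G n) = total T X (T.pow G n) := by
  obtain ⟨e, hP, hW⟩ := T.kunneth X G n
  exact agree_power (T.P_fil X G) (T.W_fil X G) h e hP hW

lemma small (X : T.Var) (G : T.Grp) (h : ¬ (Q1 T X G ∧ Q2 T X G)) : SmallShare T X G := by
  obtain ⟨-, C, hC⟩ := sqrt_law (T.P_fil X G) (T.W_fil X G) h
  refine ⟨C, fun n hn => ?_⟩
  obtain ⟨e, hP, hW⟩ := T.kunneth X G n
  exact hC n (T.H X (T.pow G n)) e _ _ hn hP hW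

lemma total_pow (X : T.Var) (G : T.Grp) (n : ℕ) : total T X (T.pow G n) = total T X G ^ n := by
  obtain ⟨e, -, -⟩ := T.kunneth X G n
  unfold total
  rw [e.finrank_eq]
  have b := finBasis ℚ (T.H X G)
  rw [finrank_eq_nat_card_basis (Basis.piTensorProduct fun _ : Fin n => b),
    Nat.card_eq_fintype_card, Fintype.card_fun, Fintype.card_fin, Fintype.card_fin]

lemma total_pos (X : T.Var) (G : T.Grp) : 0 < total T X G := by
  obtain ⟨x, -, hx⟩ := T.unit X G
  have : Nontrivial (T.H X G) := ⟨⟨x, 0, fun h => hx (h ▸ Submodule.zero_mem _)⟩⟩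
  exact finrank_pos

lemma global_right (f : ℕ → ℝ) (h0 : 0 < f 0)
    (hf : Tendsto (fun d : ℕ => f d * √(d : ℝ)) atTop atTop) (h : ManyRight T f) (X : T.Var)
    (G : T.Grp) : Q1 T X G ∧ Q2 T X G := by
  obtain ⟨S, hS, hK, hp⟩ := surface X
  suffices hs : Q1 T S G ∧ Q2 T S G from ⟨transfer1 hp G hs.1, transfer2 hp G hs.2⟩
  by_contra hcon
  obtain ⟨C, hC⟩ := small S G hcon
  have key : ∀ n : ℕ, 1 ≤ n → f (n * T.dimG G) * √(n : ℝ) ≤ C := by
    intro n hn
    have h1 := hC n hn
    have h2 := h S (T.pow G n) hS hK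
    rw [T.dimG_pow] at h2
    have h3 : (0 : ℝ) < total T S (T.pow G n) := by exact_mod_cast total_pos S _
    have h4 : f (n * T.dimG G) * total T S (T.pow G n) * √(n : ℝ) ≤
        C * total T S (T.pow G n) :=
      (mul_le_mul_of_nonneg_right h2 (Real.sqrt_nonneg _)).trans h1
    have h5 : (f (n * T.dimG G) * √(n : ℝ)) * total T S (T.pow G n) ≤
        C * total T S (T.pow G n) := by linarith
    exact le_of_mul_le_mul_right h5 h3
  rcases Nat.eq_zero_or_pos (T.dimG G) with hd | hd
  · -- dimension zero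
    rw [hd] at key
    have h1 : Tendsto (fun n : ℕ => f 0 * √(n : ℝ)) atTop atTop :=
      (Real.tendsto_sqrt_atTop.comp tendsto_natCast_atTop_atTop).const_mul_atTop h0
    obtain ⟨n, hn1, hn2⟩ := ((h1.eventually_gt_atTop C).and (eventually_ge_atTop 1)).exists
    have h2 := key n hn2
    rw [mul_zero] at h2
    linarith
  · have h1 : Tendsto (fun n : ℕ => n * T.dimG G) atTop atTop :=
      tendsto_id.atTop_mul_const' hd
    have h2 := hf.comp h1
    obtain ⟨n, hn1, hn2⟩ := ((h2.eventually_gt_atTop (C * √(T.dimG G : ℝ))).and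
      (eventually_ge_atTop 1)).exists
    have h3 := key n hn2
    simp only [Function.comp_apply] at hn1
    rw [Nat.cast_mul, Real.sqrt_mul (Nat.cast_nonneg _), ← mul_assoc] at hn1
    have h4 := mul_le_mul_of_nonneg_right h3 (Real.sqrt_nonneg (T.dimG G : ℝ))
    linarith

lemma odd_tendsto (X : T.Var) (G : T.Grp) (h : ¬ Q1 T X G) :
    Tendsto (fun n : ℕ => (odd T X (T.pow G n) : ℝ) / total T X (T.pow G n)) atTop
      (nhds (1 / 2)) := by
  obtain ⟨N, A, hN, hA, hlaw⟩ := odd_law (T.W_fil X G) h (T.unit X G)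
  refine odd_lim hN hA (fun n => ?_) (fun n => ?_)
  · obtain ⟨e, -, hW⟩ := T.kunneth X G n
    exact (hlaw n (T.H X (T.pow G n)) e _ hW).1
  · obtain ⟨e, -, hW⟩ := T.kunneth X G n
    exact (hlaw n (T.H X (T.pow G n)) e _ hW).2

lemma global_odd (ε : ℝ) (hε : 0 < ε) (h : FewOdd T ε) (X : T.Var) (G : T.Grp) : Q1 T X G := by
  obtain ⟨S, hS, hK, hp⟩ := surface X
  refine transfer1 hp G ?_
  by_contra hcon
  have h1 := odd_tendsto S G hcon
  obtain ⟨n, hn⟩ := (h1.eventually_const_lt (by linarith : 1 / 2 - ε < 1 / 2)).exists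
  have h2 := h S (T.pow G n) hS hK
  have h3 : (0 : ℝ) < total T S (T.pow G n) := by exact_mod_cast total_pos S _
  rw [lt_div_iff₀ h3] at hn
  linarith

variable (T)

/-- **The square root law for P = W.** -/
theorem result :
    (∀ X G, (Q1 T X G ∧ Q2 T X G) ↔ right T X G = total T X G) ∧
    (∀ X G, Q1 T X G ∧ Q2 T X G → ∀ n, right T X (T.pow G n) = total T X (T.pow G n)) ∧
    (∀ X G, ¬ (Q1 T X G ∧ Q2 T X G) → SmallShare T X G) ∧
    ((∀ X G, Q1 T X G ∧ Q2 T X G) ↔ ∃ f : ℕ → ℝ, 0 < f 0 ∧
      Tendsto (fun d : ℕ => f d * √(d : ℝ)) atTop atTop ∧ ManyRight T f) ∧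
    (∀ X G, ¬ Q1 T X G → Tendsto (fun n : ℕ => (odd T X (T.pow G n) : ℝ) /
      total T X (T.pow G n)) atTop (nhds (1 / 2))) ∧
    ((∀ X G, Q1 T X G) ↔ ∃ ε : ℝ, 0 < ε ∧ FewOdd T ε) := by
  refine ⟨iff_right, right_pow, small, ⟨fun h => ?_, fun ⟨f, h0, hf, h⟩ => global_right f h0 hf h⟩,
    odd_tendsto, ⟨fun h => ?_, fun ⟨ε, hε, h⟩ => global_odd ε hε h⟩⟩
  · refine ⟨fun _ => 1, one_pos, ?_, fun S G _ _ => ?_⟩
    · simp only [one_mul]
      exact Real.tendsto_sqrt_atTop.comp tendsto_natCast_atTop_atTop
    · have := (iff_right S G).1 (h S G)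
      rw [one_mul, this]
      push_cast
      exact le_refl _
  · refine ⟨1 / 2, by norm_num, fun S G _ _ => ?_⟩
    have h1 : odd T S G = 0 := odd_zero (h S G)
    rw [h1, sub_self, zero_mul, Int.cast_zero]

end Pool.Agent.Results.MP_65ad7c_ag.SquareRootLaw
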